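import Pool.Agent.Y755.AX.Stm

/-!
AX-PRE: the laws before the limit.
-/

set_option autoImplicit false

open MeasureTheory ProbabilityTheory Filter
open scoped Classical

namespace Pool.Agent.Y979.AX.Pre

open Pool.Agent.Y755.AX

lemma measurable_sh : Measurable (sh : (ℤ → Bool) → ℤ → Bool) :=
  measurable_pi_lambda _ fun x => measurable_pi_apply (x + 1)

lemma shift_int (m : ℕ) (μ : Measure (ℤ → Bool)) (hSta : Sta μ) (H : (ℤ → Bool) → ℝ → ℝ)
    (hm : ∀ t, Measurable (fun A => H A t))
    (hs : ∀ A t, H (sh A) t = H A (t + 1 / 4 ^ m)) :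
    ∀ (j : ℤ) (t : ℝ), ∫ A, H A (t + j / 4 ^ m) ∂μ = ∫ A, H A t ∂μ := by
  have base : ∀ t : ℝ, ∫ A, H A (t + 1 / 4 ^ m) ∂μ = ∫ A, H A t ∂μ := by
    intro t
    calc ∫ A, H A (t + 1 / 4 ^ m) ∂μ = ∫ A, H (sh A) t ∂μ := by
          refine integral_congr_ae (Eventually.of_forall fun A => ?_)
          exact (hs A t).symm
      _ = ∫ A, H A t ∂(μ.map sh) := by
          rw [integral_map measurable_sh.aemeasurable (hm t).aestronglyMeasurable]
      _ = ∫ A, H A t ∂μ := by rw [hSta]
  intro j
  induction j using Int.induction_on with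
  | zero => intro t; simp
  | succ i ih =>
    intro t
    have h1 := base (t + (i : ℤ) / 4 ^ m)
    have e : t + ((i : ℤ) : ℝ) / 4 ^ m + 1 / 4 ^ m = t + (((i : ℤ) + 1 : ℤ) : ℝ) / 4 ^ m := by
      push_cast; ring
    rw [e] at h1
    rw [h1]
    exact ih t
  | pred i ih =>
    intro t
    have h1 := base (t + ((-(i : ℤ) - 1 : ℤ) : ℝ) / 4 ^ m)
    have e : t + ((-(i : ℤ) - 1 : ℤ) : ℝ) / 4 ^ m + 1 / 4 ^ m = t + ((-(i : ℤ) : ℤ) : ℝ) / 4 ^ m := by
      push_cast; ring
    rw [e] at h1
    rw [← h1]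
    exact ih t

lemma Fs_mono {α : Type} [MeasurableSpace α] {S T : Set ℤ} (h : S ⊆ T) :
    (Fs S : MeasurableSpace (ℤ → α)) ≤ Fs T :=
  biSup_mono h

lemma measurableSet_gap (a b : ℕ) : MeasurableSet {A : ℤ → Bool | Gap a b A} := by
  have h1 : ∀ x : ℤ, MeasurableSet {A : ℤ → Bool | A x = true} := fun x =>
    measurableSet_eq_fun (measurable_pi_apply x) measurable_const
  have e : {A : ℤ → Bool | Gap a b A} =
      (⋂ (x : ℤ) (y : ℤ), {A : ℤ → Bool | x < y → A x = true → A y = true → (a : ℤ) ≤ y - x}) ∩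
      ⋂ (x : ℤ), ⋃ (y : ℤ), {A : ℤ → Bool | x ≤ y ∧ y < x + b ∧ A y = true} := by
    ext A
    simp only [Gap, Set.mem_ofPred_eq, Set.mem_inter_iff, Set.mem_iInter, Set.mem_iUnion]
  rw [e]
  refine MeasurableSet.inter ?_ ?_
  · refine MeasurableSet.iInter fun x => MeasurableSet.iInter fun y => ?_
    by_cases hxy : x < y ∧ ¬ (a : ℤ) ≤ y - x
    · have : {A : ℤ → Bool | x < y → A x = true → A y = true → (a : ℤ) ≤ y - x} =
          ({A : ℤ → Bool | A x = true} ∩ {A : ℤ → Bool | A y = true})ᶜ := by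
        ext A
        simp only [Set.mem_ofPred_eq, Set.mem_compl_iff, Set.mem_inter_iff]
        tauto
      rw [this]
      exact ((h1 x).inter (h1 y)).compl
    · have : {A : ℤ → Bool | x < y → A x = true → A y = true → (a : ℤ) ≤ y - x} = Set.univ := by
        ext A
        simp only [Set.mem_ofPred_eq, Set.mem_univ, iff_true]
        intro h2 _ _
        by_contra h3
        exact hxy ⟨h2, h3⟩
      rw [this]
      exact MeasurableSet.univ
  · refine MeasurableSet.iInter fun x => MeasurableSet.iUnion fun y => ?_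
    by_cases hxy : x ≤ y ∧ y < x + b
    · have : {A : ℤ → Bool | x ≤ y ∧ y < x + b ∧ A y = true} = {A : ℤ → Bool | A y = true} := by
        ext A
        simp only [Set.mem_ofPred_eq]
        tauto
      rw [this]
      exact h1 y
    · have : {A : ℤ → Bool | x ≤ y ∧ y < x + b ∧ A y = true} = ∅ := by
        ext A
        simp only [Set.mem_ofPred_eq, Set.mem_empty_iff_false, iff_false]
        tauto
      rw [this]
      exact MeasurableSet.empty

/-- constructor -/
def mkE (d : ℝ → ℝ) (h : IsE d) : E := ⟨d, h⟩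

theorem t_PRE : S_LVL → S_DMA → S_DMB → S_EVC → S_PRE := by
  intro hL hDMA hDMB hEVC
  obtain ⟨C0, hC0⟩ := hL
  refine ⟨(C0 : ℝ) + 4, by positivity, fun m => ?_⟩
  obtain ⟨μ, hμ, hSta, hDep, hGap⟩ := hC0 m
  have := hμ
  have hpos : (0 : ℝ) < 4 ^ m := by positivity
  set G : Set (ℤ → Bool) := {A | Gap (4 ^ m) (4 * 4 ^ m) A} with hG
  have hGm : MeasurableSet G := measurableSet_gap _ _
  obtain ⟨A0, hA0⟩ := hGap.exists
  let F : (ℤ → Bool) → E := fun A => if h : Gap (4 ^ m) (4 * 4 ^ m) A then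
    mkE (Dm m A) (hDMA m A h) else mkE (Dm m A0) (hDMA m A0 hA0)
  have hDc : ∀ x : ℝ, Continuous fun A : ℤ → Bool => Dm m A x := fun x => (hDMB m x).1
  have hFm : Measurable F := by
    refine measurable_of_restrict_of_restrict_compl hGm ?_ ?_
    · have hc : Continuous (fun A : G => mkE (Dm m A.1) (hDMA m A.1 A.2)) := by
        refine Continuous.subtype_mk ?_ _
        exact continuous_pi fun x => (hDc x).comp continuous_subtype_val
      have he : G.domRestrict F = fun A : G => mkE (Dm m A.1) (hDMA m A.1 A.2) := by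
        funext A
        have : Gap (4 ^ m) (4 * 4 ^ m) A.1 := A.2
        exact dif_pos this
      rw [he]
      exact hc.measurable
    · have he : Gᶜ.domRestrict F = fun _ => mkE (Dm m A0) (hDMA m A0 hA0) := by
        funext A
        have : ¬ Gap (4 ^ m) (4 * 4 ^ m) A.1 := A.2
        exact dif_neg this
      rw [he]
      exact measurable_const
  have hFev : ∀ᵐ A ∂μ, ∀ x : ℝ, ev x (F A) = Dm m A x := by
    filter_upwards [hGap] with A hA x
    have h1 : F A = mkE (Dm m A) (hDMA m A hA) := dif_pos hA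
    rw [h1]
    rfl
  have hDm : ∀ x : ℝ, Measurable fun A : ℤ → Bool => Dm m A x := fun x => (hDc x).measurable
  have hint : ∀ (g : E → ℝ) (g' : (ℤ → Bool) → ℝ), Measurable g →
      (∀ A, (∀ x : ℝ, ev x (F A) = Dm m A x) → g (F A) = g' A) →
      ∫ d, g d ∂(μ.map F) = ∫ A, g' A ∂μ := by
    intro g g' hg hgg
    rw [integral_map hFm.aemeasurable hg.aestronglyMeasurable]
    refine integral_congr_ae ?_
    filter_upwards [hFev] with A hA
    exact hgg A hA
  have hevm : ∀ (n : ℕ) (x : Fin n → ℝ) (φ : (Fin n → ℝ) → ℝ), Continuous φ →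
      Measurable fun d : E => φ (fun i => ev (x i) d) := by
    intro n x φ hφ
    exact (hφ.comp (continuous_pi fun i => hEVC (x i))).measurable
  refine ⟨⟨μ.map F, Measure.isProbabilityMeasure_map hFm.aemeasurable⟩, ?_, ?_⟩
  · intro j n x φ hφ
    change ∫ d : E, φ (fun i => ev (x i + j / 4 ^ m) d) ∂(μ.map F) =
      ∫ d : E, φ (fun i => ev (x i) d) ∂(μ.map F)
    rw [hint _ (fun A => φ (fun i => Dm m A (x i + j / 4 ^ m)))
        (hevm n (fun i => x i + j / 4 ^ m) φ hφ) (fun A hA => by simp only [hA]),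
      hint _ (fun A => φ (fun i => Dm m A (x i))) (hevm n x φ hφ)
        (fun A hA => by simp only [hA])]
    have := shift_int m μ hSta (fun A t => φ (fun i => Dm m A (x i + t)))
      (fun t => hφ.measurable.comp (measurable_pi_lambda _ fun i => hDm (x i + t)))
      (fun A t => by simp only [(hDMB m _).2.2, add_assoc]) j 0
    simpa using this
  · intro n n' x x' φ ψ hφ hψ hx hx'
    change ∫ d : E, φ (fun i => ev (x i) d) * ψ (fun i => ev (x' i) d) ∂(μ.map F) =
      (∫ d : E, φ (fun i => ev (x i) d) ∂(μ.map F)) * ∫ d : E, ψ (fun i => ev (x' i) d) ∂(μ.map F)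
    rw [hint (fun d => φ (fun i => ev (x i) d) * ψ (fun i => ev (x' i) d))
        (fun A => φ (fun i => Dm m A (x i)) * ψ (fun i => Dm m A (x' i)))
        ((hevm n x φ hφ).mul (hevm n' x' ψ hψ)) (fun A hA => by simp only [hA]),
      hint _ (fun A => φ (fun i => Dm m A (x i))) (hevm n x φ hφ)
        (fun A hA => by simp only [hA]),
      hint _ (fun A => ψ (fun i => Dm m A (x' i))) (hevm n' x' ψ hψ)
        (fun A hA => by simp only [hA])]
    have m1 : ∀ t, Measurable fun A : ℤ → Bool => φ (fun i => Dm m A (x i + t)) := fun t =>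
      hφ.measurable.comp (measurable_pi_lambda _ fun i => hDm (x i + t))
    have m2 : ∀ t, Measurable fun A : ℤ → Bool => ψ (fun i => Dm m A (x' i + t)) := fun t =>
      hψ.measurable.comp (measurable_pi_lambda _ fun i => hDm (x' i + t))
    have hj : (0 : ℝ) + ((-(2 * 4 ^ m : ℤ) : ℤ) : ℝ) / 4 ^ m = -2 := by
      push_cast
      field_simp
      ring
    have s1 := shift_int m μ hSta (fun A t => φ (fun i => Dm m A (x i + t)) *
      ψ (fun i => Dm m A (x' i + t))) (fun t => (m1 t).mul (m2 t))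
      (fun A t => by simp only [(hDMB m _).2.2, add_assoc]) (-(2 * 4 ^ m)) 0
    have s2 := shift_int m μ hSta (fun A t => φ (fun i => Dm m A (x i + t))) m1
      (fun A t => by simp only [(hDMB m _).2.2, add_assoc]) (-(2 * 4 ^ m)) 0
    have s3 := shift_int m μ hSta (fun A t => ψ (fun i => Dm m A (x' i + t))) m2
      (fun A t => by simp only [(hDMB m _).2.2, add_assoc]) (-(2 * 4 ^ m)) 0
    simp only [hj, add_zero] at s1 s2 s3
    rw [← s1, ← s2, ← s3]
    have i1 : Measurable[Fs {x : ℤ | x < 0}]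
        fun A : ℤ → Bool => φ (fun i => Dm m A (x i + -2)) := by
      have hv : Measurable[Fs {x : ℤ | x < 0}]
          (fun (A : ℤ → Bool) (i : Fin n) => Dm m A (x i + -2)) := by
        rw [@measurable_pi_iff]
        intro i
        refine ((hDMB m (x i + -2)).2.1).mono (Fs_mono ?_) le_rfl
        intro k hk
        simp only [Set.mem_ofPred_eq] at hk ⊢
        have h1 := (abs_lt.1 hk).1
        have h2 : ((k : ℤ) : ℝ) / 4 ^ m < 0 := by linarith [hx i]
        have h3 : ((k : ℤ) : ℝ) < 0 := by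
          by_contra h
          exact absurd h2 (not_lt.2 (div_nonneg (not_lt.1 h) hpos.le))
        exact_mod_cast h3
      exact hφ.measurable.comp hv
    have i2 : Measurable[Fs {x : ℤ | ((C0 * 4 ^ m : ℕ) : ℤ) ≤ x}]
        fun A : ℤ → Bool => ψ (fun i => Dm m A (x' i + -2)) := by
      have hv : Measurable[Fs {x : ℤ | ((C0 * 4 ^ m : ℕ) : ℤ) ≤ x}]
          (fun (A : ℤ → Bool) (i : Fin n') => Dm m A (x' i + -2)) := by
        rw [@measurable_pi_iff]
        intro i
        refine ((hDMB m (x' i + -2)).2.1).mono (Fs_mono ?_) le_rfl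
        intro k hk
        simp only [Set.mem_ofPred_eq] at hk ⊢
        have h1 := (abs_lt.1 hk).2
        have h2 : (C0 : ℝ) < ((k : ℤ) : ℝ) / 4 ^ m := by linarith [hx' i]
        rw [lt_div_iff₀ hpos] at h2
        have h3 : (((C0 * 4 ^ m : ℕ) : ℤ) : ℝ) < ((k : ℤ) : ℝ) := by
          push_cast; exact h2
        exact le_of_lt (by exact_mod_cast h3)
      exact hψ.measurable.comp hv
    have hind : IndepFun (fun A : ℤ → Bool => φ (fun i => Dm m A (x i + -2)))
        (fun A : ℤ → Bool => ψ (fun i => Dm m A (x' i + -2))) μ := by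
      rw [IndepFun_iff_Indep]
      exact indep_of_indep_of_le_left (indep_of_indep_of_le_right hDep i2.comap_le) i1.comap_le
    have := hind.integral_mul_eq_mul_integral (m1 (-2)).aestronglyMeasurable
      (m2 (-2)).aestronglyMeasurable
    simpa [Pi.mul_apply] using this

end Pool.Agent.Y979.AX.Pre
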